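import Pool.Agent.W425.GN.Defs

set_option autoImplicit false

/-! Project GN, Part B3: the roots of the `b`-functions, generic fibre. -/

namespace Pool.Agent.W376.GN

open MvPolynomial Pool.Agent.W425.GN

theorem act_add {n : ℕ} {R : Type} [CommRing R] (P Q : MvPolynomial (Sy n) R) (s : ℕ)
    (φ : MvPolynomial (Fin n) R) : act (P + Q) s φ = act P s φ + act Q s φ := by
  unfold act
  exact map_add _ _ _

theorem act_sub {n : ℕ} {R : Type} [CommRing R] (P Q : MvPolynomial (Sy n) R) (s : ℕ)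
    (φ : MvPolynomial (Fin n) R) : act (P - Q) s φ = act P s φ - act Q s φ := by
  unfold act
  exact map_sub _ _ _

theorem taskB3 : TaskB3 := by
  intro hB hA1 hA2 hA3 hA4 hA5 n f hf α m hdiv hbad
  classical
  -- a minimal polynomial
  have hex : ∃ d : ℕ, ∃ b : Polynomial ℂ, b ≠ 0 ∧ FEq f b ∧ b.natDegree = d := by
    obtain ⟨b, hb0, hb⟩ := hB f hf
    exact ⟨b.natDegree, b, hb0, hb, rfl⟩
  obtain ⟨b, hb0, hb, hbd⟩ := Nat.find_spec hex
  have hmin : ∀ b' : Polynomial ℂ, b' ≠ 0 → FEq f b' → b.natDegree ≤ b'.natDegree := by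
    intro b' hb'0 hb'
    rw [hbd]
    exact Nat.find_min' hex ⟨b', hb'0, hb', rfl⟩
  obtain ⟨c, hc⟩ := hdiv b hb
  set b' : Polynomial ℂ := (Polynomial.X - Polynomial.C α) ^ m * c with hb'def
  have hbb' : b = (Polynomial.X - Polynomial.C α) * b' := by
    rw [hc, hb'def, pow_succ]; ring
  have hb'0 : b' ≠ 0 := by
    rintro h
    rw [h, mul_zero] at hbb'
    exact hb0 hbb'
  have hdeg : b'.natDegree < b.natDegree := by
    rw [hbb', Polynomial.natDegree_mul (Polynomial.X_sub_C_ne_zero α) hb'0,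
      Polynomial.natDegree_X_sub_C]
    omega
  obtain ⟨P, Q, s0, hPQ⟩ := hbad
  obtain ⟨Pb, hPb⟩ := hb
  obtain ⟨-, -, -, hsy, -⟩ := @hA3 n ℂ _
  -- scalars
  have hsc : ∀ (u : Polynomial ℂ) (s : ℕ) (φ : MvPolynomial (Fin n) ℂ),
      act (sy (u.map (C : ℂ →+* MvPolynomial (Fin n) ℂ))) s φ = C (u.eval (s : ℂ)) * φ := by
    intro u s φ
    rw [hsy, Polynomial.eval_natCast_map]
  obtain ⟨W0, hW0⟩ := hA5 hA1 Pb Q
  obtain ⟨P1, hP1⟩ := hA5 hA1 P (sy (c.map (C : ℂ →+* MvPolynomial (Fin n) ℂ)))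
  set W := P1 + W0 with hW
  have hlarge : ∀ s ≥ s0, C (b'.eval (s : ℂ)) * f ^ s = act W s (f ^ (s + 1)) := by
    intro s hs
    have e1 : b'.eval (s : ℂ) = c.eval (s : ℂ) * ((s : ℂ) - α) ^ m := by
      rw [hb'def]
      simp only [Polynomial.eval_mul, Polynomial.eval_pow, Polynomial.eval_sub, Polynomial.eval_X,
        Polynomial.eval_C]
      ring
    have e2 : b.eval (s : ℂ) = c.eval (s : ℂ) * ((s : ℂ) - α) ^ (m + 1) := by
      rw [hc]
      simp only [Polynomial.eval_mul, Polynomial.eval_pow, Polynomial.eval_sub, Polynomial.eval_X,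
        Polynomial.eval_C]
      ring
    have e3 : act Q s (C (b.eval (s : ℂ)) * f ^ s) = C (b.eval (s : ℂ)) * act Q s (f ^ s) :=
      (hA1 Q s (f ^ s)).2.2.2.2.2 _
    rw [hPb, hW0] at e3
    rw [hW, act_add, ← hP1, hsc, e3, e1, e2, C_mul, C_mul, mul_assoc, hPQ s hs]
    ring
  obtain ⟨L, hL⟩ := hA2 (n := n) f
  set V := sy (b'.map (C : ℂ →+* MvPolynomial (Fin n) ℂ)) - L W with hV
  have hVs : ∀ s : ℕ, act V s (f ^ s) = C (b'.eval (s : ℂ)) * f ^ s - act W s (f ^ (s + 1)) := by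
    intro s
    rw [hV, act_sub, hsc, hL, ← pow_succ']
  obtain ⟨d, w, hw⟩ := hA4 f V
  have hroot : ∀ s : ℕ, s0 ≤ s → w.eval (s : MvPolynomial (Fin n) ℂ) = 0 := by
    intro s hs
    have h1 := hw s
    rw [hVs, hlarge s hs, sub_self, mul_zero] at h1
    exact (mul_eq_zero.mp h1.symm).resolve_right (pow_ne_zero _ hf)
  have hw0 : w = 0 := by
    apply Polynomial.eq_zero_of_infinite_isRoot
    have hinf : (Set.range fun s : ℕ => ((s + s0 : ℕ) : MvPolynomial (Fin n) ℂ)).Infinite := by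
      apply Set.infinite_range_of_injective
      intro a b hab
      have h3 : ((a + s0 : ℕ) : MvPolynomial (Fin n) ℂ) = ((b + s0 : ℕ) : MvPolynomial (Fin n) ℂ) :=
        hab
      have h4 : a + s0 = b + s0 := Nat.cast_injective h3
      omega
    refine hinf.mono ?_
    rintro _ ⟨s, rfl⟩
    exact hroot (s + s0) (by omega)
  have hFE : FEq f b' := by
    refine ⟨W, fun s => ?_⟩
    have h1 := hw s
    rw [hw0, Polynomial.eval_zero, zero_mul] at h1
    have h2 := (mul_eq_zero.mp h1).resolve_left (pow_ne_zero _ hf)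
    rw [hVs] at h2
    exact sub_eq_zero.mp h2
  exact absurd (hmin b' hb'0 hFE) (not_le.mpr hdeg)

end Pool.Agent.W376.GN
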